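import Mathlib

set_option autoImplicit false

/-! # Large primes do not divide two different irreducible polynomials of the form `f_i (X + k)` at
the same argument -/

namespace Pool.Agent.W149.CS

open Polynomial Finset

lemma comp_irred (g : ℤ[X]) (hg : Irreducible g) (t : ℤ) : Irreducible (g.comp (X + C t)) := by
  have h := (MulEquiv.irreducible_iff (algEquivAevalXAddC t : ℤ[X] ≃ₐ[ℤ] ℤ[X])).2 hg
  have e : (algEquivAevalXAddC t : ℤ[X] ≃ₐ[ℤ] ℤ[X]) g = g.comp (X + C t) := by
    simp [algEquivAevalXAddC, comp, aeval_def]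
  rwa [e] at h

lemma comp_natDegree (g : ℤ[X]) (t : ℤ) : (g.comp (X + C t)).natDegree = g.natDegree := by
  rw [natDegree_comp, natDegree_X_add_C, mul_one]

lemma comp_lc (g : ℤ[X]) (t : ℤ) : (g.comp (X + C t)).leadingCoeff = g.leadingCoeff := by
  rw [leadingCoeff_comp (by rw [natDegree_X_add_C]; exact one_ne_zero), leadingCoeff_X_add_C,
    one_pow, mul_one]

/-- two different irreducible polynomials with positive leading coefficients are coprime over `ℚ` -/
lemma coprime_of_ne (f g : ℤ[X]) (hf : Irreducible f) (hg : Irreducible g) (hfd : 0 < f.natDegree)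
    (hgd : 0 < g.natDegree) (hfl : 0 < f.leadingCoeff) (hgl : 0 < g.leadingCoeff) (h : f ≠ g) :
    IsCoprime (f.map (Int.castRingHom ℚ)) (g.map (Int.castRingHom ℚ)) := by
  have hfp : f.IsPrimitive := hf.isPrimitive hfd.ne'
  have hgp : g.IsPrimitive := hg.isPrimitive hgd.ne'
  have hirr : Irreducible (f.map (Int.castRingHom ℚ)) :=
    (IsPrimitive.Int.irreducible_iff_irreducible_map_cast hfp).1 hf
  rw [hirr.coprime_iff_not_dvd]
  intro hdvd
  have h1 : f ∣ g := (IsPrimitive.Int.dvd_iff_map_cast_dvd_map_cast f g hfp).2 hdvd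
  obtain ⟨u, hu⟩ := h1
  have hu1 : IsUnit u := (hg.isUnit_or_isUnit hu).resolve_left hf.not_isUnit
  obtain ⟨c, hc, hc2⟩ := Polynomial.isUnit_iff.1 hu1
  apply h
  have h2 : g.leadingCoeff = f.leadingCoeff * c := by
    rw [hu, ← hc2, leadingCoeff_mul, leadingCoeff_C]
  rcases Int.isUnit_iff.1 hc with h3 | h3
  · rw [hu, ← hc2, h3, C_1, mul_one]
  · rw [h3] at h2
    nlinarith

/-- no collisions for two polynomials -/
theorem ncol2 (f g : ℤ[X]) (hf : Irreducible f) (hg : Irreducible g) (hfd : 0 < f.natDegree)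
    (hgd : 0 < g.natDegree) (hfl : 0 < f.leadingCoeff) (hgl : 0 < g.leadingCoeff) :
    ∃ (K : ℝ) (D : ℕ), 0 ≤ K ∧ ∀ t : ℤ, f ≠ g.comp (X + C t) → ∀ p : ℕ,
      K * (1 + |(t : ℝ)|) ^ D < p → ∀ x : ℤ, (p : ℤ) ∣ f.eval x → ¬ (p : ℤ) ∣ g.eval (x + t) := by
  classical
  set d := f.natDegree with hdd
  set e := g.natDegree with hee
  set F : ℤ[X][X] := f.map C with hF
  set G : ℤ[X][X] := (g.map C).comp (X + C X) with hG
  have hFd : F.natDegree ≤ d := natDegree_map_le
  have hGd : G.natDegree ≤ e := by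
    have h1 : (X + C X : ℤ[X][X]).natDegree = 1 := natDegree_X_add_C _
    calc G.natDegree ≤ (g.map C).natDegree * (X + C X : ℤ[X][X]).natDegree := natDegree_comp_le
      _ ≤ e := by rw [h1, mul_one]; exact natDegree_map_le
  obtain ⟨P, Q, -, -, hPQ⟩ := exists_mul_add_mul_eq_C_resultant F G hFd hGd (Or.inl hfd.ne')
  set R : ℤ[X] := F.resultant G d e with hR
  have key1 : ∀ x t : ℤ, ∃ u v : ℤ, f.eval x * u + g.eval (x + t) * v = R.eval t := by
    intro x t
    refine ⟨((P.eval (C x)).eval t), ((Q.eval (C x)).eval t), ?_⟩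
    have h := congrArg (fun q : ℤ[X][X] => (q.eval (C x)).eval t) hPQ
    simp only [eval_add, eval_mul, eval_C] at h
    have hFx : (F.eval (C x)).eval t = f.eval x := by
      rw [hF, eval_map, eval₂_at_apply, eval_C]
    have hGx : (G.eval (C x)).eval t = g.eval (x + t) := by
      rw [hG, eval_comp, eval_map]
      simp only [eval_add, eval_X, eval_C]
      have := Polynomial.hom_eval₂ g C (evalRingHom t) (C x + X)
      simp only [coe_evalRingHom] at this
      rw [this]
      have hid : (evalRingHom t).comp C = RingHom.id ℤ := by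
        ext; simp
      rw [hid]
      simp [eval₂_id]
    rw [hFx, hGx] at h
    exact h
  have key2 : ∀ t : ℤ, f ≠ g.comp (X + C t) → R.eval t ≠ 0 := by
    intro t ht h0
    have hcop := coprime_of_ne f (g.comp (X + C t)) hf (comp_irred g hg t) hfd
      (by rw [comp_natDegree]; exact hgd) hfl (by rw [comp_lc]; exact hgl) ht
    have h2 := resultant_ne_zero (f.map (Int.castRingHom ℚ))
      ((g.comp (X + C t)).map (Int.castRingHom ℚ)) hcop
    have hinj : Function.Injective (Int.castRingHom ℚ) := RingHom.injective_int _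
    rw [natDegree_map_eq_of_injective hinj, natDegree_map_eq_of_injective hinj,
      comp_natDegree] at h2
    rw [resultant_map_map f (g.comp (X + C t)) f.natDegree g.natDegree (Int.castRingHom ℚ)] at h2
    apply h2
    have h1 := resultant_map_map F G d e (evalRingHom t)
    have hFm : F.map (evalRingHom t) = f := by
      rw [hF, Polynomial.map_map]
      have hid : (evalRingHom t).comp C = RingHom.id ℤ := by
        ext; simp
      rw [hid, Polynomial.map_id]
    have hGm : G.map (evalRingHom t) = g.comp (X + C t) := by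
      rw [hG, Polynomial.map_comp, Polynomial.map_map]
      have hid : (evalRingHom t).comp C = RingHom.id ℤ := by
        ext; simp
      rw [hid, Polynomial.map_id]
      simp
    rw [hFm, hGm, ← hR] at h1
    rw [← hdd, ← hee, h1]
    simpa using h0
  set K : ℝ := ∑ i ∈ range (R.natDegree + 1), |((R.coeff i : ℤ) : ℝ)| with hK
  have hK0 : 0 ≤ K := sum_nonneg fun i _ => abs_nonneg _
  have key3 : ∀ t : ℤ, |((R.eval t : ℤ) : ℝ)| ≤ K * (1 + |(t : ℝ)|) ^ R.natDegree := by
    intro t
    have h0 : 0 ≤ |(t : ℝ)| := abs_nonneg _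
    rw [eval_eq_sum_range]
    push_cast
    refine (abs_sum_le_sum_abs _ _).trans ?_
    rw [hK, sum_mul]
    refine sum_le_sum fun i hi => ?_
    rw [abs_mul, abs_pow]
    refine mul_le_mul_of_nonneg_left ?_ (abs_nonneg _)
    calc |(t : ℝ)| ^ i ≤ (1 + |(t : ℝ)|) ^ i := pow_le_pow_left₀ h0 (by linarith) _
      _ ≤ (1 + |(t : ℝ)|) ^ R.natDegree :=
        pow_le_pow_right₀ (by linarith) (by simpa [Nat.lt_succ_iff] using hi)
  refine ⟨K, R.natDegree, hK0, ?_⟩
  intro t ht p hp x hx hxt
  obtain ⟨u, v, huv⟩ := key1 x t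
  have hdvd : (p : ℤ) ∣ R.eval t := by
    rw [← huv]
    exact dvd_add (hx.mul_right _) (hxt.mul_right _)
  have hne : R.eval t ≠ 0 := key2 _ ht
  have hle : (p : ℤ) ≤ |R.eval t| :=
    Int.le_of_dvd (abs_pos.2 hne) ((dvd_abs _ _).2 hdvd)
  have hle' : (p : ℝ) ≤ |((R.eval t : ℤ) : ℝ)| := by
    have : ((p : ℤ) : ℝ) ≤ ((|R.eval t| : ℤ) : ℝ) := by exact_mod_cast hle
    rw [Int.cast_abs] at this
    simpa using this
  have := key3 t
  linarith

end Pool.Agent.W149.CS
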