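import Pool.Agent.H474R2.PG.Final
import Pool.Agent.H426R3.SQ.R1

set_option autoImplicit false

/-! # Auxiliary estimates for the covering of polynomial values -/

namespace Pool.Agent.W149.CS

open Polynomial Finset Pool.Agent.H474R2.PG Filter
open Pool.Agent.H426R3.SQ (SP R1aux_mem_SP)

lemma rho_comp (f : ℤ[X]) (p : ℕ) (hp : p.Prime) (k : ℤ) :
    rho (f.comp (X + C k)) p = rho f p := by
  rw [← rho_shift f p hp k]
  unfold rho
  congr 1
  refine Finset.filter_congr fun a _ => ?_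
  rw [eval_comp]
  simp

lemma Sg_congr (r s : ℕ → ℕ) (w : ℝ) (h : ∀ p : ℕ, p.Prime → r p = s p) : Sg r w = Sg s w := by
  unfold Sg
  refine Finset.sum_congr rfl fun p hp => ?_
  rw [h p (PR_prime hp)]

/-- size of the error term -/
lemma err_leW (r : ℕ → ℕ) (d : ℕ) (hd : 1 ≤ d) (L : ℝ) (hL : 1 < L)
    (hlog : 10 * Real.log d ≤ Real.log L)
    (T : Finset ℕ) (hT : ∀ p ∈ T, L < (p : ℝ)) (hr : ∀ p ∈ T, r p ≤ d)
    (hTX : ∏ p ∈ T, (p : ℝ) ≤ Real.exp (1 / 4 * L)) :
    ∏ p ∈ T, (r p : ℝ) ≤ Real.exp (1 / 10 * L) := by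
  have hL0 : 0 < L := by linarith
  have hdR : (1:ℝ) ≤ d := by exact_mod_cast hd
  have hlL : 0 < Real.log L := Real.log_pos hL
  have h1 : ∏ p ∈ T, (r p : ℝ) ≤ ∏ p ∈ T, (d : ℝ) := by
    apply Finset.prod_le_prod
    · intro p _; positivity
    · intro p hp
      exact_mod_cast hr p hp
  rw [Finset.prod_const] at h1
  have h2 : L ^ T.card ≤ ∏ p ∈ T, (p : ℝ) := by
    have : L ^ T.card = ∏ p ∈ T, L := by rw [Finset.prod_const]
    rw [this]
    exact Finset.prod_le_prod (fun _ _ => hL0.le) (fun p hp => (hT p hp).le)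
  have h3 : (T.card : ℝ) * Real.log L ≤ 1 / 4 * L := by
    have h4 := h2.trans hTX
    have h5 := Real.log_le_log (by positivity) h4
    rw [Real.log_pow, Real.log_exp] at h5
    exact h5
  refine h1.trans ?_
  have h6 : (d : ℝ) ^ T.card = Real.exp (T.card * Real.log d) := by
    rw [Real.exp_nat_mul, Real.exp_log (by linarith)]
  rw [h6]
  apply Real.exp_le_exp.mpr
  have h7 : (T.card : ℝ) * (10 * Real.log d) ≤ T.card * Real.log L :=
    mul_le_mul_of_nonneg_left hlog (Nat.cast_nonneg _)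
  linarith

/-- lower bound for the sum of the densities -/
lemma sum_lower (r : ℕ → ℕ) (C : ℝ)
    (hC : ∀ w : ℝ, 3 ≤ w → |Sg r w - Real.log (Real.log w)| ≤ C)
    (y v : ℝ) (hy : 3 ≤ y) (hyv : y ≤ v) (D : ℝ)
    (hD : Real.log (Real.log v) - Real.log (Real.log y) ≤ D)
    (w : ℝ) (hyw : y ≤ w) :
    Real.log (Real.log w) - Real.log (Real.log y) - (2 * C + D) ≤
      ∑ p ∈ SP y w ∅, (if p.Prime ∧ v < (p : ℝ) then (r p : ℝ) / (p : ℝ) else 0) := by
  have hC0 : 0 ≤ C := (abs_nonneg _).trans (hC 3 le_rfl)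
  have hnn : ∀ p ∈ SP y w ∅, (0:ℝ) ≤ (if p.Prime ∧ v < (p : ℝ) then (r p : ℝ) / (p : ℝ) else 0) := by
    intro p _
    split_ifs
    · positivity
    · exact le_rfl
  rcases le_or_gt w v with h | h
  · have h1 : Real.log (Real.log w) ≤ Real.log (Real.log v) := by
      apply Real.log_le_log
      · exact Real.log_pos (by linarith)
      · exact Real.log_le_log (by linarith) h
    have h2 := Finset.sum_nonneg hnn
    linarith
  · have hw0 : 0 ≤ w := by linarith
    have h1 := abs_le.1 (hC w (by linarith))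
    have h2 := abs_le.1 (hC v (by linarith))
    have h3 : Sg r w ≤ Sg r v +
        ∑ p ∈ SP y w ∅, (if p.Prime ∧ v < (p : ℝ) then (r p : ℝ) / (p : ℝ) else 0) := by
      have e1 : Sg r w = ∑ p ∈ (PR w).filter (fun p : ℕ => (p : ℝ) ≤ v), (r p : ℝ) / (p : ℝ) +
          ∑ p ∈ (PR w).filter (fun p : ℕ => ¬ (p : ℝ) ≤ v), (r p : ℝ) / (p : ℝ) := by
        unfold Sg
        rw [Finset.sum_filter_add_sum_filter_not]
      rw [e1]
      apply add_le_add
      · unfold Sg
        apply Finset.sum_le_sum_of_subset_of_nonneg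
        · intro p hp
          rw [Finset.mem_filter] at hp
          have h4 := (Finset.mem_filter.1 hp.1)
          unfold PR
          rw [Finset.mem_filter, Finset.mem_Icc]
          exact ⟨⟨(Finset.mem_Icc.1 h4.1).1, Nat.le_floor hp.2⟩, h4.2⟩
        · intro p _ _
          positivity
      · rw [← Finset.sum_filter]
        apply Finset.sum_le_sum_of_subset_of_nonneg
        · intro p hp
          rw [Finset.mem_filter] at hp
          have h4 := PR_prime hp.1
          have h5 := PR_le hw0 hp.1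
          have h6 : v < (p : ℝ) := not_le.1 hp.2
          rw [Finset.mem_filter, R1aux_mem_SP hw0]
          exact ⟨⟨⟨h4, h5⟩, by linarith, Finset.notMem_empty _⟩, h4, h6⟩
        · intro p _ _
          positivity
    linarith [h1.1, h2.2]

/-- largeness conditions -/
lemma large (X₀ y₀ : ℝ) (d BB : ℕ) : ∃ Y₀ : ℝ, ∀ Y : ℝ, Y₀ ≤ Y →
    X₀ ≤ Y ∧ 1 ≤ Y ∧ 10000 ≤ Real.log Y ∧ y₀ ≤ Real.log Y ∧ (BB : ℝ) ≤ Real.log Y ∧
      10 * Real.log d ≤ Real.log (Real.log Y) ∧
      (Real.log Y) ^ (1 / 20 : ℝ) ≤ 1 / 10 * Real.log Y := by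
  have t1 : Tendsto (fun Y : ℝ => Real.log Y) atTop atTop := Real.tendsto_log_atTop
  have t2 : Tendsto (fun Y : ℝ => Real.log (Real.log Y)) atTop atTop := t1.comp t1
  have e1 : ∀ᶠ Y : ℝ in atTop, (Real.log Y) ^ (1 / 20 : ℝ) ≤ 1 / 10 * Real.log Y := by
    have h1 : ∀ᶠ t : ℝ in atTop, t ^ (1 / 20 : ℝ) ≤ 1 / 10 * t := by
      have h2 : Tendsto (fun t : ℝ => t ^ (19 / 20 : ℝ)) atTop atTop :=
        tendsto_rpow_atTop (by norm_num)
      filter_upwards [h2.eventually_ge_atTop (10 : ℝ), eventually_ge_atTop (1:ℝ)] with t ht ht1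
      have h3 : t = t ^ (1 / 20 : ℝ) * t ^ (19 / 20 : ℝ) := by
        rw [← Real.rpow_add (by linarith)]
        norm_num
      have h4 : 0 ≤ t ^ (1 / 20 : ℝ) := Real.rpow_nonneg (by linarith) _
      have h5 := mul_le_mul_of_nonneg_left ht h4
      rw [← h3] at h5
      linarith
    exact t1.eventually h1
  obtain ⟨Y₀, hY₀⟩ := eventually_atTop.mp ((eventually_ge_atTop X₀).and
    ((eventually_ge_atTop (1:ℝ)).and ((t1.eventually_ge_atTop (10000:ℝ)).and
    ((t1.eventually_ge_atTop y₀).and ((t1.eventually_ge_atTop (BB:ℝ)).and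
    ((t2.eventually_ge_atTop (10 * Real.log d)).and e1))))))
  exact ⟨Y₀, fun Y hY => hY₀ Y hY⟩

end Pool.Agent.W149.CS
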