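import Pool.Agent.H474R2.PG.Class

set_option autoImplicit false

/-! # Greedy choice of a residue class for the small primes, for a finite set of polynomials -/

namespace Pool.Agent.W149.CS

open Polynomial Finset Pool.Agent.H474R2.PG

open scoped Classical in
/-- one prime, weights -/
lemma one_primeW (p : ℕ) (hp : p.Prime) (R : Finset ℤ[X]) (w : ℤ[X] → ℝ) : ∃ a : ℤ,
    ∑ g ∈ R.filter (fun g : ℤ[X] => ¬ (p : ℤ) ∣ g.eval a), w g ≤
      ∑ g ∈ R, w g * (1 - (rho g p : ℝ) / (p : ℝ)) := by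
  have hp0 : (0 : ℝ) < p := by exact_mod_cast hp.pos
  have hsum : ∑ a ∈ Finset.range p,
      ∑ g ∈ R.filter (fun g : ℤ[X] => ¬ (p : ℤ) ∣ g.eval (a : ℤ)), w g =
      ∑ g ∈ R, w g * ((p : ℝ) - rho g p) := by
    simp_rw [Finset.sum_filter]
    rw [Finset.sum_comm]
    refine Finset.sum_congr rfl fun g _ => ?_
    rw [← Finset.sum_filter, Finset.sum_const, nsmul_eq_mul, mul_comm]
    congr 1
    have h3 := Finset.card_filter_add_card_filter_not (s := Finset.range p)
      (fun a : ℕ => (p : ℤ) ∣ g.eval (a : ℤ))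
    rw [Finset.card_range] at h3
    have h4 : (rho g p : ℝ) + (((Finset.range p).filter
        (fun a : ℕ => ¬ (p : ℤ) ∣ g.eval (a : ℤ))).card : ℝ) = p := by
      unfold rho
      exact_mod_cast h3
    linarith
  have hne : (Finset.range p).Nonempty := Finset.nonempty_range_iff.2 hp.ne_zero
  obtain ⟨a, -, ha⟩ := Finset.exists_le_of_sum_le (s := Finset.range p)
    (f := fun a : ℕ => ∑ g ∈ R.filter (fun g : ℤ[X] => ¬ (p : ℤ) ∣ g.eval (a : ℤ)), w g)
    (g := fun _ => ∑ g ∈ R, w g * (1 - (rho g p : ℝ) / (p : ℝ))) hne (by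
      rw [hsum, Finset.sum_const, Finset.card_range, nsmul_eq_mul, Finset.mul_sum]
      apply le_of_eq
      refine Finset.sum_congr rfl fun g _ => ?_
      field_simp)
  exact ⟨a, ha⟩

open scoped Classical in
lemma choose_allW (R : Finset ℤ[X]) (S : Finset ℕ) (hS : ∀ p ∈ S, p.Prime) :
    ∀ w : ℤ[X] → ℝ, ∃ a : ℕ → ℤ,
      ∑ g ∈ R.filter (fun g : ℤ[X] => ∀ p ∈ S, ¬ (p : ℤ) ∣ g.eval (a p)), w g ≤
        ∑ g ∈ R, w g * ∏ p ∈ S, (1 - (rho g p : ℝ) / (p : ℝ)) := by
  induction S using Finset.induction_on with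
  | empty => exact fun w => ⟨fun _ => 0, by simp⟩
  | insert p S hpS ih =>
    intro w
    obtain ⟨a, ha⟩ := ih (fun q hq => hS q (Finset.mem_insert_of_mem hq))
      (fun g => w g * (1 - (rho g p : ℝ) / (p : ℝ)))
    have hp := hS p (Finset.mem_insert_self p S)
    obtain ⟨a0, ha0⟩ := one_primeW p hp
      (R.filter (fun g : ℤ[X] => ∀ p ∈ S, ¬ (p : ℤ) ∣ g.eval (a p))) w
    refine ⟨Function.update a p a0, ?_⟩
    have heq : R.filter (fun g : ℤ[X] => ∀ q ∈ insert p S,
        ¬ (q : ℤ) ∣ g.eval (Function.update a p a0 q)) =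
        (R.filter (fun g : ℤ[X] => ∀ p ∈ S, ¬ (p : ℤ) ∣ g.eval (a p))).filter
          (fun g : ℤ[X] => ¬ (p : ℤ) ∣ g.eval a0) := by
      rw [Finset.filter_filter]
      refine Finset.filter_congr (fun k _ => ?_)
      rw [Finset.forall_mem_insert, Function.update_self]
      constructor
      · rintro ⟨h1, h2⟩
        refine ⟨fun q hq => ?_, h1⟩
        have := h2 q hq
        rwa [Function.update_of_ne (by rintro rfl; exact hpS hq)] at this
      · rintro ⟨h1, h2⟩
        refine ⟨h2, fun q hq => ?_⟩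
        rw [Function.update_of_ne (by rintro rfl; exact hpS hq)]
        exact h1 q hq
    rw [heq]
    refine ha0.trans (ha.trans (le_of_eq ?_))
    refine Finset.sum_congr rfl fun g _ => ?_
    rw [Finset.prod_insert hpS]
    ring

open scoped Classical in
/-- choice of a residue class for the small primes (greedy + Chinese remainder theorem) -/
theorem class_choiceW (R : Finset ℤ[X]) (S : Finset ℕ) (hS : ∀ p ∈ S, p.Prime) :
    ∃ r : ℤ, ((R.filter (fun g : ℤ[X] => ∀ p ∈ S, ¬ (p : ℤ) ∣ g.eval r)).card : ℝ) ≤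
      ∑ g ∈ R, ∏ p ∈ S, (1 - (rho g p : ℝ) / (p : ℝ)) := by
  obtain ⟨a, ha⟩ := choose_allW R S hS (fun _ => 1)
  obtain ⟨r, hr⟩ := Pool.Agent.H256R2.SC.crt_int S (fun p : ℕ => (p : ℤ))
    (fun i hi j hj hij => by
      rw [Nat.isCoprime_iff_coprime]
      exact (Nat.coprime_primes (hS i hi) (hS j hj)).2 hij) a
  refine ⟨r, ?_⟩
  have h1 : R.filter (fun g : ℤ[X] => ∀ p ∈ S, ¬ (p : ℤ) ∣ g.eval r) =
      R.filter (fun g : ℤ[X] => ∀ p ∈ S, ¬ (p : ℤ) ∣ g.eval (a p)) := by
    refine Finset.filter_congr (fun g _ => ?_)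
    refine forall₂_congr (fun p hp => not_congr ?_)
    have h1 : (p : ℤ) ∣ g.eval r - g.eval (a p) :=
      (hr p hp).trans (Polynomial.sub_dvd_eval_sub r (a p) g)
    exact (dvd_iff_dvd_of_dvd_sub h1)
  rw [h1]
  simpa using ha

end Pool.Agent.W149.CS
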