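import Pool.Agent.W149.CS.Base
import Pool.Agent.W149.CS.Class
import Pool.Agent.W154.PV.CovD
import Pool.Agent.W154.PV.RoughD
import Pool.Agent.H618R2.GR.G1

set_option autoImplicit false

/-! # Covering the values of many polynomials at one point -/

namespace Pool.Agent.W149.CS

open Polynomial Finset Pool.Agent.H474R2.PG Filter
open Pool.Agent.H426R3.SQ (SP R1aux_mem_SP)

open scoped Classical in
theorem cover_core (d : ℕ) (hd : 1 ≤ d) (C₀ : ℝ) (BB : ℕ) (E : ℕ) (hE : 3 ≤ E) :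
    ∃ c : ℝ, 0 < c ∧ ∃ Y₀ : ℝ, ∀ Y : ℝ, Y₀ ≤ Y → ∀ M : ℤ, ∀ 𝒬 : Finset ℤ[X],
      (∀ g ∈ 𝒬, ∀ p : ℕ, p.Prime → BB < p → rho g p ≤ d) →
      (∀ g ∈ 𝒬, ∀ w : ℝ, 3 ≤ w → |Sg (rho g) w - Real.log (Real.log w)| ≤ C₀) →
      (∀ g ∈ 𝒬, ∀ h ∈ 𝒬, ∀ p : ℕ, p.Prime → Real.log Y ^ E < p → ∀ a : ℤ,
        (p : ℤ) ∣ g.eval a → (p : ℤ) ∣ h.eval a → g = h) →
      (𝒬.card : ℝ) ≤ c * Real.log Y * Real.log (Real.log Y) →
      ∃ x : ℤ, (M : ℝ) + Y / 2 ≤ x ∧ (x : ℝ) ≤ M + Y ∧ ∀ g ∈ 𝒬, ∃ p : ℕ, p.Prime ∧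
        (p : ℝ) ≤ Y ^ (1 / 10 : ℝ) ∧ (p : ℤ) ∣ g.eval x := by
  have hdR : (1 : ℝ) ≤ d := by exact_mod_cast hd
  have hER : (3 : ℝ) ≤ E := by exact_mod_cast hE
  obtain ⟨c₂, hc₂, y₀, hy₀, hR⟩ := Pool.Agent.W154.PV.rough_lowerD (d : ℝ)
    (2 * C₀ + Real.log E) hdR
  obtain ⟨c, hc, X₀, hcov⟩ := Pool.Agent.W154.PV.covering_hitD (d : ℝ) (c₂ / 3) hdR (by positivity)
  set c' : ℝ := c * Real.exp (-C₀) / 2 with hc'
  have hc'0 : 0 < c' := by positivity
  obtain ⟨Y₀, hY₀⟩ := large X₀ y₀ d BB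
  refine ⟨c', hc'0, Y₀, fun Y hY M 𝒬 h1 h2 h3 h4 => ?_⟩
  obtain ⟨a1, a2, a3, a4, a5, a6, a7⟩ := hY₀ Y hY
  have hY0 : 0 < Y := by linarith
  set L : ℝ := Real.log Y with hL
  set l : ℝ := Real.log L with hll
  have hLpos : 0 < L := by linarith
  have hYexp : Y = Real.exp L := (Real.exp_log hY0).symm
  have hYr : ∀ s : ℝ, Y ^ s = Real.exp (s * L) := by
    intro s
    rw [hYexp, ← Real.exp_mul, mul_comm]
  have hl0 : 0 < l := Real.log_pos (by linarith)
  -- small primes
  set w : ℝ := L / 100 with hw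
  have hw0 : 0 ≤ w := by positivity
  have hw3 : 3 ≤ w := by rw [hw]; linarith
  obtain ⟨r, hr⟩ := class_choiceW 𝒬 (PR w) (fun p hp => PR_prime hp)
  set Rs : Finset ℤ[X] := 𝒬.filter (fun g : ℤ[X] => ∀ p ∈ PR w, ¬ (p : ℤ) ∣ g.eval r) with hRs
  have hRsub : ∀ g ∈ Rs, g ∈ 𝒬 := fun g hg => (Finset.mem_filter.1 hg).1
  set W : ℕ := WW w with hW
  have hW1 : 1 ≤ W := WW_pos w
  have hWle : (W : ℝ) ≤ Real.exp (L / 50) := by
    rw [hW, hw]
    exact WW_le hLpos.le
  have hWR : (0:ℝ) < W := by exact_mod_cast hW1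
  -- survivors
  have hlogw : l / 2 ≤ Real.log w := by
    have e1 : Real.sqrt L ≤ w := by
      rw [hw, Real.sqrt_le_left (by positivity)]
      nlinarith
    have e2 : l / 2 = Real.log (Real.sqrt L) := by
      rw [Real.log_sqrt hLpos.le]
    rw [e2]
    exact Real.log_le_log (Real.sqrt_pos.2 hLpos) e1
  have hcard : (Rs.card : ℝ) ≤ c * L := by
    have e1 : (Rs.card : ℝ) ≤ ∑ g ∈ 𝒬, Real.exp C₀ / (l / 2) := by
      refine hr.trans (Finset.sum_le_sum fun g hg => ?_)
      refine (prod_le_exp g w).trans ?_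
      have e2 := (abs_le.1 (h2 g hg w hw3)).1
      have e3 : Real.exp (-(Sg (rho g) w)) ≤ Real.exp (C₀ - Real.log (Real.log w)) :=
        Real.exp_le_exp.2 (by linarith)
      refine e3.trans ?_
      have e4 : 0 < Real.log w := by linarith
      rw [Real.exp_sub, Real.exp_log e4]
      exact div_le_div_of_nonneg_left (Real.exp_pos _).le (by positivity) hlogw
    rw [Finset.sum_const, nsmul_eq_mul] at e1
    calc (Rs.card : ℝ) ≤ 𝒬.card * (Real.exp C₀ / (l / 2)) := e1
      _ ≤ (c' * L * l) * (Real.exp C₀ / (l / 2)) :=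
          mul_le_mul_of_nonneg_right h4 (by positivity)
      _ = c * L := by
          have : Real.exp (-C₀) * Real.exp C₀ = 1 := by rw [← Real.exp_add]; simp
          rw [hc']
          have e5 : c * Real.exp (-C₀) / 2 * L * l * (Real.exp C₀ / (l / 2)) =
            c * L * (Real.exp (-C₀) * Real.exp C₀) * (l / l) := by
            field_simp
          rw [e5, this, div_self hl0.ne']
          ring
  -- the set
  have hY4 : 10000 ≤ Y := by
    rw [hYexp]
    have := Real.add_one_le_exp L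
    linarith
  set M' : ℤ := M + ⌈Y / 2⌉ with hM'
  set B' : ℤ := M + ⌊Y⌋ with hB'
  have hfl1 : Y - 1 < (⌊Y⌋ : ℝ) := Int.sub_one_lt_floor _
  have hfl2 : (⌊Y⌋ : ℝ) ≤ Y := Int.floor_le _
  have hce1 : Y / 2 ≤ (⌈Y / 2⌉ : ℝ) := Int.le_ceil _
  have hce2 : (⌈Y / 2⌉ : ℝ) < Y / 2 + 1 := Int.ceil_lt_add_one _
  have hMB : M' ≤ B' := by
    have : (M' : ℝ) ≤ (B' : ℝ) := by
      rw [hM', hB']
      push_cast
      linarith
    exact_mod_cast this
  set 𝒜 : Finset ℤ := (Finset.Ioc M' B').filter (fun a : ℤ => (W : ℤ) ∣ a - r) with h𝒜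
  set N : ℝ := ((B' : ℝ) - M') / W with hN
  have hBM : Y / 4 ≤ (B' : ℝ) - M' := by
    rw [hB', hM']
    push_cast
    linarith
  have hNge : Y ^ (1 / 2 : ℝ) ≤ N := by
    rw [hN, le_div_iff₀ hWR]
    refine le_trans ?_ hBM
    rw [hYr]
    calc Real.exp (1 / 2 * L) * W ≤ Real.exp (1 / 2 * L) * Real.exp (L / 50) :=
          mul_le_mul_of_nonneg_left hWle (Real.exp_pos _).le
      _ = Real.exp (26 / 50 * L) := by rw [← Real.exp_add]; congr 1; ring
      _ ≤ Y / 4 := by
          have h1 : Y = Real.exp (26 / 50 * L) * Real.exp (24 / 50 * L) := by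
            rw [← Real.exp_add, hYexp]; congr 1; ring
          have h2 : 4 ≤ Real.exp (24 / 50 * L) := by
            have := Real.add_one_le_exp (24 / 50 * L)
            linarith
          have h3 := Real.exp_pos (26 / 50 * L)
          rw [h1]
          nlinarith
  -- conclusion for a suitable `a`
  have hwY : w ≤ Y ^ (1 / 10 : ℝ) := by
    rw [hYr, hw]
    have := Real.add_one_le_exp (1 / 10 * L)
    linarith
  have hfin : ∀ a ∈ 𝒜, (∀ k ∈ Rs, ∃ p : ℕ, p.Prime ∧ (p : ℝ) ≤ Y ^ (1 / 10 : ℝ) ∧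
      (p : ℤ) ∣ k.eval a) → ∃ x : ℤ, (M : ℝ) + Y / 2 ≤ x ∧ (x : ℝ) ≤ M + Y ∧
      ∀ g ∈ 𝒬, ∃ p : ℕ, p.Prime ∧ (p : ℝ) ≤ Y ^ (1 / 10 : ℝ) ∧ (p : ℤ) ∣ g.eval x := by
    intro a ha hcovd
    rw [h𝒜, Finset.mem_filter, Finset.mem_Ioc] at ha
    obtain ⟨⟨ha1, ha2⟩, ha3⟩ := ha
    refine ⟨a, ?_, ?_, fun g hg => ?_⟩
    · have e1 : (M' : ℝ) < a := by exact_mod_cast ha1
      rw [hM'] at e1
      push_cast at e1
      linarith
    · have e1 : (a : ℝ) ≤ B' := by exact_mod_cast ha2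
      rw [hB'] at e1
      push_cast at e1
      linarith
    · by_cases hgR : g ∈ Rs
      · exact hcovd g hgR
      · rw [hRs, Finset.mem_filter, not_and] at hgR
        have h1 := hgR hg
        push Not at h1
        obtain ⟨p, hp, hpd⟩ := h1
        refine ⟨p, PR_prime hp, (PR_le hw0 hp).trans hwY, ?_⟩
        have h2 : (p : ℤ) ∣ a - r := by
          refine dvd_trans ?_ ha3
          have : p ∣ W := by
            rw [hW]
            exact Finset.dvd_prod_of_mem _ hp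
          exact_mod_cast this
        have h5 := dvd_trans h2 (Polynomial.sub_dvd_eval_sub a r g)
        have h6 := dvd_add h5 hpd
        rwa [sub_add_cancel] at h6
  have h𝒜ne : 𝒜.Nonempty := by
    have h1 := Pool.Agent.H256R2.SC.count_ap M' B' hMB W hW1 r
    rw [← h𝒜] at h1
    rw [← Finset.card_pos]
    have h2 : (1:ℝ) < N := by
      refine lt_of_lt_of_le ?_ hNge
      rw [hYr]
      exact Real.one_lt_exp_iff.mpr (by linarith)
    have h3 := (abs_le.mp h1).1
    rw [← hN] at h3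
    have : (0:ℝ) < (𝒜.card : ℝ) := by linarith
    exact_mod_cast this
  rcases Rs.eq_empty_or_nonempty with hemp | hne
  · obtain ⟨a, ha⟩ := h𝒜ne
    exact hfin a ha (fun k hk => by rw [hemp] at hk; exact absurd hk (Finset.notMem_empty k))
  have : Nonempty (↥Rs) := hne.to_subtype
  set v : ℝ := L ^ E with hv
  have hL1 : 1 ≤ L := by linarith
  have hyv : L ^ 3 ≤ v := pow_le_pow_right₀ hL1 hE
  have hLy : L ≤ L ^ 3 := le_self_pow₀ hL1 (by norm_num)
  have hy3 : 3 ≤ L ^ 3 := by linarith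
  obtain ⟨hit, hhit⟩ : ∃ hit : ℕ → ℤ → (↥Rs) → Prop, hit = fun (p : ℕ) (a : ℤ) (k : ↥Rs) =>
    v < (p : ℝ) ∧ (p : ℤ) ∣ (k : ℤ[X]).eval a := ⟨_, rfl⟩
  obtain ⟨gg, hgg⟩ : ∃ gg : ℕ → (↥Rs) → ℝ, gg = fun (p : ℕ) (k : ↥Rs) =>
    if p.Prime ∧ v < (p : ℝ) then (rho (k : ℤ[X]) p : ℝ) / (p : ℝ) else 0 := ⟨_, rfl⟩
  have hBp : ∀ p : ℕ, v < (p : ℝ) → BB < p := by
    intro p hp
    have : (BB : ℝ) < p := by linarith
    exact_mod_cast this
  have hgg1 : ∀ p k, 0 ≤ gg p k ∧ gg p k ≤ (d : ℝ) / (p : ℝ) := by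
    intro p k
    rw [hgg]
    simp only
    split_ifs with hif
    · refine ⟨by positivity, ?_⟩
      apply div_le_div_of_nonneg_right _ (Nat.cast_nonneg _)
      exact_mod_cast h1 k (hRsub k k.2) p hif.1 (hBp p hif.2)
    · exact ⟨le_rfl, by positivity⟩
  have hlogy : Real.log (L ^ 3) = 3 * l := by
    rw [Real.log_pow, ← hll]
    norm_num
  have hlogv : Real.log v = E * l := by
    rw [hv, Real.log_pow, ← hll]
  obtain ⟨a, ha, hac⟩ := hcov Y a1 ∅ (↥Rs) (by rw [Fintype.card_coe]; exact hcard) hit gg hgg1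
    (by
      intro p hp _ a k k' hk hk'
      rw [hhit] at hk hk'
      exact Subtype.ext (h3 k (hRsub k k.2) k' (hRsub k' k'.2) p hp hk.1 a hk.2 hk'.2))
    (by
      intro k z x hx hxz _
      have e1 := hR (L ^ 3) z ∅ (fun p => gg p k) (by linarith) (fun p => hgg1 p k)
        (by
          intro w' hw1 _
          have e2 := sum_lower (rho (k : ℤ[X])) C₀ (h2 k (hRsub k k.2)) (L ^ 3) v hy3 hyv
            (Real.log E) (by
              rw [hlogv, hlogy, Real.log_mul (by positivity) hl0.ne',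
                Real.log_mul (by norm_num) hl0.ne']
              have : 0 ≤ Real.log 3 := Real.log_nonneg (by norm_num)
              linarith) w' hw1
          rw [hgg]
          simpa using e2)
        x hx hxz
      rw [hlogy] at e1
      have e3 : c₂ / 3 * Real.log x / l = c₂ * Real.log x / (3 * l) := by
        field_simp
      rw [e3]
      exact e1)
    𝒜 N (Real.exp (1 / 10 * L)) hNge (Real.exp_pos _).le (by rw [hYr])
    (by
      intro T s hTX hT
      by_cases hall : ∀ p ∈ T, v < (p : ℝ)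
      · have e1 := Pool.Agent.H618R2.GR.count_gen
          (fun p a => (p : ℤ) ∣ ((s p : ↥Rs) : ℤ[X]).eval a)
          (fun p => rho ((s p : ↥Rs) : ℤ[X]) p) M' B' hMB W hW1 r T
          (fun p hp => ⟨(hT p hp).1, by
            rw [hW]
            exact PR_not_dvd hw0 (hT p hp).1 (by
              have e2 := (hT p hp).2.1
              rw [hw]
              linarith)⟩)
          (fun p _ a b hab => by
            have e2 := hab.trans (Polynomial.sub_dvd_eval_sub a b ((s p : ↥Rs) : ℤ[X]))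
            exact dvd_iff_dvd_of_dvd_sub e2)
          (fun p _ => by
            unfold rho
            congr 1
            ext b
            simp only [Finset.mem_filter])
        have e3 := e1.trans (err_leW (fun p => rho ((s p : ↥Rs) : ℤ[X]) p) d hd L (by linarith) a6 T
          (fun p hp => by
            have := hall p hp
            linarith)
          (fun p hp => h1 _ (hRsub _ (s p).2) p (hT p hp).1 (hBp p (hall p hp)))
          (by rw [hYr] at hTX; exact hTX))
        have e4 : 𝒜.filter (fun a => ∀ p ∈ T, hit p a (s p)) =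
            (Finset.Ioc M' B').filter (fun a : ℤ => (W : ℤ) ∣ a - r ∧
              ∀ p ∈ T, (p : ℤ) ∣ ((s p : ↥Rs) : ℤ[X]).eval a) := by
          rw [h𝒜, Finset.filter_filter]
          refine Finset.filter_congr fun a _ => ?_
          refine and_congr Iff.rfl (forall₂_congr fun p hp => ?_)
          rw [hhit]
          exact ⟨fun h => h.2, fun h => ⟨hall p hp, h⟩⟩
        have e5 : ∏ p ∈ T, gg p (s p) =
            ∏ p ∈ T, ((rho ((s p : ↥Rs) : ℤ[X]) p : ℕ) : ℝ) / (p : ℝ) := by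
          refine Finset.prod_congr rfl fun p hp => ?_
          rw [hgg]
          simp only
          rw [if_pos ⟨(hT p hp).1, hall p hp⟩]
        rw [e5]
        refine le_trans (le_of_eq ?_) e3
        refine congrArg abs (congrArg₂ (· - ·) (congrArg Nat.cast ?_) rfl)
        rw [e4]
        congr 1
        ext b
        simp only [Finset.mem_filter]
      · push Not at hall
        obtain ⟨q, hq, hqv⟩ := hall
        have e4 : 𝒜.filter (fun a => ∀ p ∈ T, hit p a (s p)) = ∅ := by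
          rw [Finset.filter_eq_empty_iff]
          intro a _ hcon
          have := hcon q hq
          rw [hhit] at this
          exact absurd this.1 (not_lt.2 hqv)
        have e5 : ∏ p ∈ T, gg p (s p) = 0 := by
          apply Finset.prod_eq_zero hq
          rw [hgg]
          simp only
          rw [if_neg]
          rintro ⟨_, hcon⟩
          exact absurd hcon (not_lt.2 hqv)
        rw [e4, e5]
        simp only [Finset.card_empty, Nat.cast_zero, mul_zero, sub_zero, abs_zero]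
        exact (Real.exp_pos _).le)
  refine hfin a ha (fun k hk => ?_)
  obtain ⟨p, hp, _, hpY, _, hpd⟩ := hac ⟨k, hk⟩
  rw [hhit] at hpd
  refine ⟨p, hp, hpY.trans ?_, hpd.2⟩
  rw [hYr]
  exact Real.exp_le_exp.2 a7

end Pool.Agent.W149.CS
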