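import Pool.Agent.W149.CS.Cover
import Pool.Agent.W149.CS.Ncol
import Pool.Agent.H474R2.GE.FA
import Pool.Agent.H474R2.PG.Growth

set_option autoImplicit false

/-! # Simultaneous composite values of a finite system of polynomials -/

namespace Pool.Agent.W149.CS

open Polynomial Finset Pool.Agent.H474R2.PG Filter

lemma large2 (K : ℝ) (x₀ : ℝ) (A D : ℕ) : ∃ Y₀ : ℝ, ∀ Y : ℝ, Y₀ ≤ Y →
    K * (1 + 2 * Real.log Y ^ A) ^ D ≤ Real.log Y ^ ((A + 1) * D + 4) ∧
      Real.log Y ^ A ≤ Y / 4 ∧ x₀ ≤ Y / 4 ∧ 100 ≤ Real.log Y ∧ 1 ≤ Y := by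
  have t1 : Tendsto (fun Y : ℝ => Real.log Y) atTop atTop := Real.tendsto_log_atTop
  have e2 : ∀ᶠ Y : ℝ in atTop, Real.log Y ^ A ≤ Y / 4 := by
    have h1 : (fun Y : ℝ => (Real.log Y) ^ (A : ℝ)) =o[atTop] (fun Y : ℝ => Y ^ (1 : ℝ)) :=
      isLittleO_log_rpow_rpow_atTop A (by norm_num)
    filter_upwards [h1.def (show (0:ℝ) < 1 / 4 by norm_num), eventually_ge_atTop (1:ℝ)]
      with Y hY hY1
    have hlog := Real.log_nonneg hY1
    rw [Real.norm_eq_abs, Real.norm_eq_abs, abs_of_nonneg (Real.rpow_nonneg hlog _),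
      Real.rpow_one, abs_of_nonneg (by linarith), Real.rpow_natCast] at hY
    linarith
  obtain ⟨Y₀, hY₀⟩ := eventually_atTop.mp ((t1.eventually_ge_atTop (100:ℝ)).and
    ((t1.eventually_ge_atTop K).and (e2.and ((eventually_ge_atTop (4 * x₀)).and
      (eventually_ge_atTop (1:ℝ))))))
  refine ⟨Y₀, fun Y hY => ?_⟩
  obtain ⟨h1, h2, h3, h4, h5⟩ := hY₀ Y hY
  refine ⟨?_, h3, by linarith, h1, h5⟩
  set L := Real.log Y with hL
  have hL1 : 1 ≤ L := by linarith
  have hLA : 1 ≤ L ^ A := one_le_pow₀ hL1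
  have h6 : 1 + 2 * L ^ A ≤ L ^ (A + 1) := by
    rw [pow_succ]
    nlinarith
  have h7 : (1 + 2 * L ^ A) ^ D ≤ L ^ ((A + 1) * D) := by
    rw [pow_mul]
    exact pow_le_pow_left₀ (by linarith) h6 D
  have h8 : K ≤ L ^ 4 := by
    have : L ≤ L ^ 4 := le_self_pow₀ hL1 (by norm_num)
    linarith
  have h9 : 0 ≤ (1 + 2 * L ^ A) ^ D := by positivity
  calc K * (1 + 2 * L ^ A) ^ D ≤ L ^ 4 * (1 + 2 * L ^ A) ^ D :=
        mul_le_mul_of_nonneg_right h8 h9
    _ ≤ L ^ 4 * L ^ ((A + 1) * D) := mul_le_mul_of_nonneg_left h7 (by positivity)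
    _ = L ^ ((A + 1) * D + 4) := by rw [pow_add, mul_comm]

/-- the irreducible case -/
theorem main_irred (r : ℕ) (f : Fin r → ℤ[X]) (hf : ∀ i, Irreducible (f i))
    (hd : ∀ i, 0 < (f i).natDegree) (hl : ∀ i, 0 < (f i).leadingCoeff) (A : ℕ) :
    ∃ c : ℝ, 0 < c ∧ ∃ Y₀ : ℝ, ∀ Y : ℝ, Y₀ ≤ Y → ∀ M : ℤ, 0 ≤ M →
      ∀ P : Finset (Fin r × ℤ), (∀ q ∈ P, |(q.2 : ℝ)| ≤ Real.log Y ^ A) →
        (P.card : ℝ) ≤ c * Real.log Y * Real.log (Real.log Y) →
        ∃ x : ℤ, (M : ℝ) + Y / 2 ≤ x ∧ (x : ℝ) ≤ M + Y ∧ ∀ q ∈ P, ∃ p : ℕ, p.Prime ∧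
          (p : ℤ) ∣ (f q.1).eval (x + q.2) ∧ (p : ℤ) < (f q.1).eval (x + q.2) := by
  classical
  choose B hB using fun i => rho_le (f i) (hf i).ne_zero
  choose C hC0 hM using fun i => Pool.Agent.H474R2.GE.mertens_rho (f i) (hf i) (hd i)
  choose K D hK0 hKD using fun i j =>
    ncol2 (f i) (f j) (hf i) (hf j) (hd i) (hd j) (hl i) (hl j)
  choose x₀ hx₀ using fun i => growth (f i) (hd i) (hl i)
  set d : ℕ := 1 + ∑ i, (f i).natDegree with hdd
  set BB : ℕ := ∑ i, B i with hBB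
  set C₀ : ℝ := ∑ i, C i with hC₀
  set KK : ℝ := ∑ i, ∑ j, K i j with hKK
  set DD : ℕ := ∑ i, ∑ j, D i j with hDD
  set XX : ℤ := ∑ i, |x₀ i| with hXX
  have hdi : ∀ i, (f i).natDegree ≤ d := by
    intro i
    have := Finset.single_le_sum (f := fun i => (f i).natDegree) (fun j _ => Nat.zero_le _)
      (Finset.mem_univ i)
    omega
  have hBi : ∀ i, B i ≤ BB := fun i =>
    Finset.single_le_sum (f := B) (fun j _ => Nat.zero_le _) (Finset.mem_univ i)
  have hCi : ∀ i, C i ≤ C₀ := fun i =>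
    Finset.single_le_sum (f := C) (fun j _ => hC0 j) (Finset.mem_univ i)
  have hKi : ∀ i j, K i j ≤ KK := fun i j =>
    (Finset.single_le_sum (f := fun j => K i j) (fun j _ => hK0 i j) (Finset.mem_univ j)).trans
      (Finset.single_le_sum (f := fun i => ∑ j, K i j)
        (fun i _ => Finset.sum_nonneg fun j _ => hK0 i j) (Finset.mem_univ i))
  have hDi : ∀ i j, D i j ≤ DD := fun i j =>
    (Finset.single_le_sum (f := fun j => D i j) (fun j _ => Nat.zero_le _)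
      (Finset.mem_univ j)).trans
      (Finset.single_le_sum (f := fun i => ∑ j, D i j)
        (fun i _ => Nat.zero_le _) (Finset.mem_univ i))
  have hXi : ∀ i, x₀ i ≤ XX := fun i => (le_abs_self _).trans
    (Finset.single_le_sum (f := fun i => |x₀ i|) (fun j _ => abs_nonneg _) (Finset.mem_univ i))
  have hKK0 : 0 ≤ KK := Finset.sum_nonneg fun i _ => Finset.sum_nonneg fun j _ => hK0 i j
  obtain ⟨c, hc, Y₁, hY₁⟩ := cover_core d (by omega) C₀ BB ((A + 1) * DD + 4) (by omega)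
  obtain ⟨Y₂, hY₂⟩ := large2 KK XX A DD
  refine ⟨c, hc, max Y₁ Y₂, fun Y hY M hM0 P hP hPc => ?_⟩
  obtain ⟨b1, b2, b3, b4, b5⟩ := hY₂ Y ((le_max_right _ _).trans hY)
  set L := Real.log Y with hL
  have hY0 : 0 < Y := by linarith
  have hYexp : Y = Real.exp L := (Real.exp_log hY0).symm
  obtain ⟨x, hx1, hx2, hx3⟩ := hY₁ Y ((le_max_left _ _).trans hY) M
    (P.image fun q => (f q.1).comp (X + Polynomial.C q.2))
    (by
      intro g hg p hp hBp
      obtain ⟨q, -, rfl⟩ := Finset.mem_image.1 hg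
      rw [rho_comp _ p hp]
      exact (hB q.1 p hp (lt_of_le_of_lt (hBi q.1) hBp)).trans (hdi q.1))
    (by
      intro g hg w hw
      obtain ⟨q, -, rfl⟩ := Finset.mem_image.1 hg
      rw [Sg_congr _ (rho (f q.1)) w (fun p hp => rho_comp _ p hp _)]
      exact (hM q.1 w hw).trans (hCi q.1))
    (by
      intro g hg h hh p hp hpL a hpg hph
      obtain ⟨q, hq, rfl⟩ := Finset.mem_image.1 hg
      obtain ⟨s, hs, rfl⟩ := Finset.mem_image.1 hh
      by_contra hne
      have hq1 := hP q hq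
      have hs1 := hP s hs
      have hcomp : (f s.1).comp (X + Polynomial.C s.2) =
          ((f s.1).comp (X + Polynomial.C (s.2 - q.2))).comp (X + Polynomial.C q.2) := by
        rw [comp_assoc]
        congr 1
        simp [add_assoc]
      have h1 : f q.1 ≠ (f s.1).comp (X + Polynomial.C (s.2 - q.2)) := by
        intro h
        apply hne
        show (f q.1).comp (X + Polynomial.C q.2) = (f s.1).comp (X + Polynomial.C s.2)
        rw [hcomp, ← h]
      have h2 : |((s.2 - q.2 : ℤ) : ℝ)| ≤ 2 * L ^ A := by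
        push_cast
        have := abs_sub (s.2 : ℝ) (q.2 : ℝ)
        linarith
      have hLA : 0 ≤ L ^ A := by positivity
      have h3 : K q.1 s.1 * (1 + |((s.2 - q.2 : ℤ) : ℝ)|) ^ D q.1 s.1 < p := by
        refine lt_of_le_of_lt ?_ hpL
        refine le_trans ?_ b1
        calc K q.1 s.1 * (1 + |((s.2 - q.2 : ℤ) : ℝ)|) ^ D q.1 s.1 ≤
              KK * (1 + 2 * L ^ A) ^ D q.1 s.1 := by
              apply mul_le_mul (hKi _ _) _ (by positivity) hKK0
              exact pow_le_pow_left₀ (by positivity) (by linarith) _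
          _ ≤ KK * (1 + 2 * L ^ A) ^ DD := by
              apply mul_le_mul_of_nonneg_left _ hKK0
              exact pow_le_pow_right₀ (by linarith) (hDi _ _)
      refine hKD q.1 s.1 (s.2 - q.2) h1 p h3 (a + q.2) ?_ ?_
      · simpa [eval_comp] using hpg
      · have e1 : a + q.2 + (s.2 - q.2) = a + s.2 := by ring
        rw [e1]
        simpa [eval_comp] using hph)
    (le_trans (by exact_mod_cast Finset.card_image_le) hPc)
  refine ⟨x, hx1, hx2, fun q hq => ?_⟩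
  obtain ⟨p, hp, hpY, hpd⟩ := hx3 _ (Finset.mem_image_of_mem _ hq)
  have hpd' : (p : ℤ) ∣ (f q.1).eval (x + q.2) := by simpa [eval_comp] using hpd
  refine ⟨p, hp, hpd', ?_⟩
  have h1 : Y / 4 ≤ ((x + q.2 : ℤ) : ℝ) := by
    have := (abs_le.1 (hP q hq)).1
    have hM0' : (0 : ℝ) ≤ M := by exact_mod_cast hM0
    push_cast
    linarith
  have h2 : x₀ q.1 ≤ x + q.2 := by
    have h3 : (x₀ q.1 : ℝ) ≤ (XX : ℝ) := by exact_mod_cast hXi q.1
    have h4 : (x₀ q.1 : ℝ) ≤ ((x + q.2 : ℤ) : ℝ) := by linarith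
    exact_mod_cast h4
  have h3 := hx₀ q.1 _ h2
  have h4 : ((x + q.2 : ℤ) : ℝ) ≤ 2 * (((f q.1).eval (x + q.2) : ℤ) : ℝ) := by exact_mod_cast h3
  have h5 : (p : ℝ) < Y / 8 := by
    refine lt_of_le_of_lt hpY ?_
    have hYr : Y ^ (1 / 10 : ℝ) = Real.exp (1 / 10 * L) := by
      rw [hYexp, ← Real.exp_mul, mul_comm]
    rw [hYr]
    have e1 : Y = Real.exp (1 / 10 * L) * Real.exp (9 / 10 * L) := by
      rw [← Real.exp_add, hYexp]; congr 1; ring
    have e2 : 16 ≤ Real.exp (9 / 10 * L) := by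
      have := Real.add_one_le_exp (9 / 10 * L)
      linarith
    have e3 := Real.exp_pos (1 / 10 * L)
    rw [e1]
    nlinarith
  have h6 : (p : ℝ) < (((f q.1).eval (x + q.2) : ℤ) : ℝ) := by linarith
  exact_mod_cast h6

/-- a nonunit factor of a nonzero polynomial has large values -/
lemma factor_large (g : ℤ[X]) (hg0 : g ≠ 0) (hg : ¬ IsUnit g) :
    ∃ x₀ : ℤ, ∀ x : ℤ, x₀ ≤ x → 2 ≤ |g.eval x| := by
  rcases Nat.eq_zero_or_pos g.natDegree with h | h
  · refine ⟨0, fun x _ => ?_⟩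
    rw [natDegree_eq_zero] at h
    obtain ⟨a, rfl⟩ := h
    rw [eval_C]
    have h1 : a ≠ 0 := by
      rintro rfl
      exact hg0 (by simp)
    have h2 : ¬ IsUnit a := fun hu => hg (isUnit_C.2 hu)
    rw [Int.isUnit_iff] at h2
    push Not at h2
    have h3 : 0 < |a| := abs_pos.2 h1
    by_contra h4
    have h5 : |a| = 1 := by omega
    rcases abs_eq (by norm_num : (0:ℤ) ≤ 1) |>.1 h5 with h6 | h6
    · exact h2.1 h6
    · exact h2.2 h6
  · rcases lt_or_gt_of_ne (leadingCoeff_ne_zero.2 hg0) with h1 | h1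
    · obtain ⟨x₀, hx₀⟩ := growth (-g) (by rwa [natDegree_neg]) (by
        rw [leadingCoeff_neg]; linarith)
      refine ⟨max x₀ 4, fun x hx => ?_⟩
      have h2 := hx₀ x ((le_max_left _ _).trans hx)
      have h3 : 4 ≤ x := (le_max_right _ _).trans hx
      rw [eval_neg] at h2
      have := neg_le_abs (g.eval x)
      omega
    · obtain ⟨x₀, hx₀⟩ := growth g h h1
      refine ⟨max x₀ 4, fun x hx => ?_⟩
      have h2 := hx₀ x ((le_max_left _ _).trans hx)
      have h3 : 4 ≤ x := (le_max_right _ _).trans hx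
      have := le_abs_self (g.eval x)
      omega

/-- a reducible polynomial has composite values only, from some point on -/
lemma reducible_composite (g : ℤ[X]) (hd : 0 < g.natDegree) (hl : 0 < g.leadingCoeff)
    (hg : ¬ Irreducible g) :
    ∃ x₀ : ℤ, ∀ x : ℤ, x₀ ≤ x → 1 < g.eval x ∧ ¬ Prime (g.eval x) := by
  have hg0 : g ≠ 0 := by
    rintro rfl
    simp at hd
  have hgu : ¬ IsUnit g := by
    intro hu
    have := natDegree_eq_zero_of_isUnit hu
    omega
  have h1 : ∃ a b : ℤ[X], g = a * b ∧ ¬ IsUnit a ∧ ¬ IsUnit b := by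
    by_contra hcon
    push Not at hcon
    apply hg
    refine ⟨hgu, fun a b hab => ?_⟩
    by_cases ha : IsUnit a
    · exact Or.inl ha
    · exact Or.inr (hcon a b hab ha)
  obtain ⟨a, b, hab, ha, hb⟩ := h1
  have ha0 : a ≠ 0 := by
    rintro rfl
    rw [zero_mul] at hab
    exact hg0 hab
  have hb0 : b ≠ 0 := by
    rintro rfl
    rw [mul_zero] at hab
    exact hg0 hab
  obtain ⟨x₁, hx₁⟩ := factor_large a ha0 ha
  obtain ⟨x₂, hx₂⟩ := factor_large b hb0 hb
  obtain ⟨x₃, hx₃⟩ := growth g hd hl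
  refine ⟨max (max x₁ x₂) (max x₃ 4), fun x hx => ?_⟩
  have e1 := hx₁ x (by omega)
  have e2 := hx₂ x (by omega)
  have e3 := hx₃ x (by omega)
  have e4 : 4 ≤ x := by omega
  refine ⟨by omega, fun hp => ?_⟩
  have e5 : g.eval x = a.eval x * b.eval x := by rw [hab, eval_mul]
  rw [e5] at hp
  rcases hp.irreducible.isUnit_or_isUnit rfl with hu | hu
  · have := Int.isUnit_iff_abs_eq.1 hu
    omega
  · have := Int.isUnit_iff_abs_eq.1 hu
    omega

/-- simultaneous composite values -/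
theorem main (r : ℕ) (f : Fin r → ℤ[X]) (hd : ∀ i, 0 < (f i).natDegree)
    (hl : ∀ i, 0 < (f i).leadingCoeff) (A : ℕ) :
    ∃ c : ℝ, 0 < c ∧ ∃ Y₀ : ℝ, ∀ Y : ℝ, Y₀ ≤ Y → ∀ M : ℤ, 0 ≤ M →
      ∀ P : Finset (Fin r × ℤ), (∀ q ∈ P, |(q.2 : ℝ)| ≤ Real.log Y ^ A) →
        (P.card : ℝ) ≤ c * Real.log Y * Real.log (Real.log Y) →
        ∃ x : ℤ, (M : ℝ) + Y / 2 ≤ x ∧ (x : ℝ) ≤ M + Y ∧ ∀ q ∈ P,
          1 < (f q.1).eval (x + q.2) ∧ ¬ Prime ((f q.1).eval (x + q.2)) := by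
  classical
  obtain ⟨c, hc, Y₁, hY₁⟩ := main_irred r (fun i => if Irreducible (f i) then f i else X)
    (fun i => by
      split_ifs with h
      · exact h
      · exact irreducible_X)
    (fun i => by
      split_ifs with h
      · exact hd i
      · rw [natDegree_X]; norm_num)
    (fun i => by
      split_ifs with h
      · exact hl i
      · rw [leadingCoeff_X]; norm_num) A
  have h1 : ∀ i, ∃ x₀ : ℤ, ¬ Irreducible (f i) → ∀ x : ℤ, x₀ ≤ x →
      1 < (f i).eval x ∧ ¬ Prime ((f i).eval x) := by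
    intro i
    by_cases h : Irreducible (f i)
    · exact ⟨0, fun h' => absurd h h'⟩
    · obtain ⟨x₀, hx₀⟩ := reducible_composite (f i) (hd i) (hl i) h
      exact ⟨x₀, fun _ => hx₀⟩
  choose x₀ hx₀ using h1
  set XX : ℤ := ∑ i, |x₀ i| with hXX
  have hXi : ∀ i, x₀ i ≤ XX := fun i => (le_abs_self _).trans
    (Finset.single_le_sum (f := fun i => |x₀ i|) (fun j _ => abs_nonneg _) (Finset.mem_univ i))
  obtain ⟨Y₂, hY₂⟩ := large2 0 XX A 0
  refine ⟨c, hc, max Y₁ Y₂, fun Y hY M hM0 P hP hPc => ?_⟩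
  obtain ⟨-, b2, b3, b4, b5⟩ := hY₂ Y ((le_max_right _ _).trans hY)
  obtain ⟨x, hx1, hx2, hx3⟩ := hY₁ Y ((le_max_left _ _).trans hY) M hM0
    (P.filter fun q => Irreducible (f q.1))
    (fun q hq => hP q (Finset.mem_filter.1 hq).1)
    (le_trans (by exact_mod_cast Finset.card_filter_le _ _) hPc)
  refine ⟨x, hx1, hx2, fun q hq => ?_⟩
  by_cases h : Irreducible (f q.1)
  · obtain ⟨p, hp, hpd, hlt⟩ := hx3 q (Finset.mem_filter.2 ⟨hq, h⟩)
    rw [if_pos h] at hpd hlt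
    have hp2 : (2 : ℤ) ≤ p := by exact_mod_cast hp.two_le
    refine ⟨by linarith, fun hpr => ?_⟩
    obtain ⟨k, hk⟩ := hpd
    rcases hpr.irreducible.isUnit_or_isUnit hk with hu | hu
    · have := Int.isUnit_iff_abs_eq.1 hu
      rw [abs_of_nonneg (by linarith)] at this
      linarith
    · rcases Int.isUnit_iff.1 hu with h1 | h1
      · rw [h1, mul_one] at hk
        linarith
      · rw [h1] at hk
        linarith
  · apply hx₀ q.1 h
    have h1 : Y / 4 ≤ ((x + q.2 : ℤ) : ℝ) := by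
      have := (abs_le.1 (hP q hq)).1
      have hM0' : (0 : ℝ) ≤ M := by exact_mod_cast hM0
      push_cast
      linarith
    have h3 : (x₀ q.1 : ℝ) ≤ (XX : ℝ) := by exact_mod_cast hXi q.1
    have h4 : (x₀ q.1 : ℝ) ≤ ((x + q.2 : ℤ) : ℝ) := by linarith
    exact_mod_cast h4

end Pool.Agent.W149.CS
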